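import Pool.Agent.Helper28.TK.StW

/-!
# Project TK, all weights, module Gp: change of variable, p-adic estimates (3 p^ν)

Adapted from `Pool/Agent/Helper77/THW/M_Gp.lean` (`3` in place of `2`; port by helper28).
-/

set_option autoImplicit false

namespace Pool.Agent.Helper63.TKW

open Pool.Agent.Helper28.TH (OkH ALPlus)

open Pool.Agent.Helper28.TK Pool.Agent.Helper28.WK Pool.Agent.Helper28.TK Pool.Agent.Helper14.CV
open Pool.Agent.Helper4.TL (OkE)

/-- the transformed polynomial -/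
private noncomputable def tr {p : ℕ} [Fact p.Prime] (a : ℕ) (c : ℚ_[p]) (u : ℕ → ℚ_[p]) :
    Polynomial ℚ_[p] :=
  ∑ s ∈ Finset.range (a + 1), Polynomial.C (u s) *
    (Polynomial.X ^ s * (1 - Polynomial.C c * Polynomial.X) ^ (a - s))

private theorem tr_deg {p : ℕ} [Fact p.Prime] (a : ℕ) (c : ℚ_[p]) (u : ℕ → ℚ_[p]) :
    (tr a c u).natDegree ≤ a := by
  unfold tr
  refine Polynomial.natDegree_sum_le_of_forall_le _ _ fun s hs => ?_
  have hs' : s ≤ a := by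
    have := Finset.mem_range.1 hs
    omega
  have h1 : (1 - Polynomial.C c * Polynomial.X : Polynomial ℚ_[p]).natDegree ≤ 1 := by
    refine (Polynomial.natDegree_sub_le _ _).trans ?_
    rw [Polynomial.natDegree_one]
    exact max_le (by omega) ((Polynomial.natDegree_C_mul_le _ _).trans Polynomial.natDegree_X_le)
  have h2 : ((1 - Polynomial.C c * Polynomial.X : Polynomial ℚ_[p]) ^ (a - s)).natDegree ≤ a - s := by
    refine Polynomial.natDegree_pow_le.trans ?_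
    calc (a - s) * (1 - Polynomial.C c * Polynomial.X : Polynomial ℚ_[p]).natDegree
        ≤ (a - s) * 1 := Nat.mul_le_mul_left _ h1
      _ = a - s := mul_one _
  have h3 : (Polynomial.X ^ s * (1 - Polynomial.C c * Polynomial.X : Polynomial ℚ_[p]) ^ (a - s)).natDegree
      ≤ a := by
    refine Polynomial.natDegree_mul_le.trans ?_
    rw [Polynomial.natDegree_X_pow]
    omega
  exact (Polynomial.natDegree_C_mul_le _ _).trans h3

private theorem tr_eval {p : ℕ} [Fact p.Prime] (a : ℕ) (c : ℚ_[p]) (u : ℕ → ℚ_[p]) (x : ℚ_[p]) :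
    (tr a c u).eval x = ∑ s ∈ Finset.range (a + 1), u s * (x ^ s * (1 - c * x) ^ (a - s)) := by
  unfold tr
  rw [Polynomial.eval_finsetSum]
  refine Finset.sum_congr rfl fun s _ => ?_
  simp

private theorem core {p : ℕ} [Fact p.Prime] (a : ℕ) (u : ℕ → ℚ_[p]) (c x b : ℤ) (L : ℕ)
    (h : (p : ℤ) ^ L ∣ b * (1 - c * x) - x) :
    ‖(1 - (c : ℚ_[p]) * x) ^ a * (∑ s ∈ Finset.range (a + 1), u s * (b : ℚ_[p]) ^ s) -
      (tr a (c : ℚ_[p]) u).eval (x : ℚ_[p])‖ ≤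
      (∑ s ∈ Finset.range (a + 1), ‖u s‖) * ((p : ℝ) ^ L)⁻¹ := by
  rw [tr_eval, Finset.mul_sum, ← Finset.sum_sub_distrib, Finset.sum_mul]
  refine norm_sum_le_of_le _ fun s hs => ?_
  have hs' : s ≤ a := by
    have := Finset.mem_range.1 hs
    omega
  have e1 : (1 - (c : ℚ_[p]) * x) ^ a * (u s * (b : ℚ_[p]) ^ s) -
      u s * ((x : ℚ_[p]) ^ s * (1 - (c : ℚ_[p]) * x) ^ (a - s)) =
      u s * (((((1 - c * x) ^ (a - s) : ℤ) : ℚ_[p])) *
        ((((b * (1 - c * x)) ^ s - x ^ s : ℤ) : ℚ_[p]))) := by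
    have e2 : (1 - (c : ℚ_[p]) * x) ^ a = (1 - (c : ℚ_[p]) * x) ^ (a - s) * (1 - (c : ℚ_[p]) * x) ^ s := by
      rw [← pow_add]
      congr 1
      omega
    rw [e2]
    push_cast
    rw [mul_pow]
    ring
  rw [e1, norm_mul, norm_mul]
  have n1 : ‖((((1 - c * x) ^ (a - s) : ℤ) : ℚ_[p]))‖ ≤ 1 := Padic.norm_int_le_one _
  have n2 : ‖((((b * (1 - c * x)) ^ s - x ^ s : ℤ) : ℚ_[p]))‖ ≤ ((p : ℝ) ^ L)⁻¹ := by
    have h1 : (p : ℤ) ^ L ∣ (b * (1 - c * x)) ^ s - x ^ s :=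
      h.trans (sub_dvd_pow_sub_pow _ _ s)
    have h2 := (Padic.norm_int_le_pow_iff_dvd (p := p)
      ((b * (1 - c * x)) ^ s - x ^ s) L).2 (by exact_mod_cast h1)
    rwa [zpow_neg, zpow_natCast] at h2
  have n0 : 0 ≤ ‖u s‖ := norm_nonneg _
  have n3 := norm_nonneg ((((1 - c * x) ^ (a - s) : ℤ) : ℚ_[p]))
  have n4 := norm_nonneg ((((b * (1 - c * x)) ^ s - x ^ s : ℤ) : ℚ_[p]))
  calc ‖u s‖ * (‖((((1 - c * x) ^ (a - s) : ℤ) : ℚ_[p]))‖ *
        ‖((((b * (1 - c * x)) ^ s - x ^ s : ℤ) : ℚ_[p]))‖)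
      ≤ ‖u s‖ * (1 * ((p : ℝ) ^ L)⁻¹) := by gcongr
    _ = ‖u s‖ * ((p : ℝ) ^ L)⁻¹ := by rw [one_mul]

/-- GP-H. -/
theorem hGp : SHGp := by
  intro hPl1 p hp a ν P y hν
  set c : ℤ := 3 * (p : ℤ) ^ ν * y with hc
  have hcx : ∀ x : ℤ, (1 - 3 * (p : ℚ_[p]) ^ ν * x * y) = 1 - (c : ℚ_[p]) * x := by
    intro x
    rw [hc]
    push_cast
    ring
  have hdv : ∀ (L : ℕ) (x b : ℤ), (p : ℤ) ^ L ∣ b * (1 - 3 * (p : ℤ) ^ ν * x * y) - x →
      (p : ℤ) ^ L ∣ b * (1 - c * x) - x := by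
    intro L x b h
    have e : b * (1 - c * x) - x = b * (1 - 3 * (p : ℤ) ^ ν * x * y) - x := by rw [hc]; ring
    rwa [e]
  refine ⟨fun hP => ?_, fun hQ => ?_⟩
  · obtain ⟨f, hf, hfe⟩ := hPl1 p hp a P hP
    refine ⟨tr a (c : ℚ_[p]) (fun s => f.coeff s), ∑ s ∈ Finset.range (a + 1), ‖f.coeff s‖,
      tr_deg _ _ _, fun L x b _ hd => ?_⟩
    rw [hcx, hfe b, Polynomial.eval_eq_sum_range' (n := a + 1) (by omega)]
    exact core a _ c x b L (hdv L x b hd)
  · obtain ⟨V, hV1, hV2, hV3⟩ := hQ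
    refine ⟨fun x => tr a (c : ℚ_[p]) (fun s => ((V s x : ℤ_[p]) : ℚ_[p])), (a + 1 : ℕ),
      fun x => tr_deg _ _ _, fun x => ?_, ?_, fun L x b hL hd => ?_⟩
    · simp only [hV1]
    · unfold tr
      rw [Finset.sum_comm]
      refine Finset.sum_eq_zero fun s _ => ?_
      rw [← Finset.sum_mul, ← map_sum, ← PadicInt.coe_sum, hV2]
      simp
    · have hd' := hdv L x b hd
      -- `b` and `x` are congruent modulo `p`
      have h1 : (p : ℤ) ∣ b - x := by
        have h2 : (p : ℤ) ∣ (p : ℤ) ^ L := dvd_pow_self _ (by omega)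
        have h3 : (p : ℤ) ∣ c := by
          rw [hc]
          exact Dvd.dvd.mul_right (Dvd.dvd.mul_left (dvd_pow_self _ (by omega)) 3) y
        have h4 : b - x = (b * (1 - c * x) - x) + c * (b * x) := by ring
        rw [h4]
        exact dvd_add (h2.trans hd') (h3.mul_right _)
      obtain ⟨k, hk⟩ := h1
      have hVb : ∀ s : ℕ, V s b = V s x := by
        intro s
        have hper : Function.Periodic (V s) (p : ℤ) := hV1 s
        have h5 := hper.int_mul k x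
        rw [← h5]
        congr 1
        linear_combination hk
      have hPb : ((P b : ℤ_[p]) : ℚ_[p]) =
          ∑ s ∈ Finset.range (a + 1), ((V s x : ℤ_[p]) : ℚ_[p]) * (b : ℚ_[p]) ^ s := by
        rw [hV3 b, PadicInt.coe_sum]
        refine Finset.sum_congr rfl fun s _ => ?_
        rw [hVb s]
        push_cast
        ring
      rw [hcx, hPb]
      refine (core a (fun s => ((V s x : ℤ_[p]) : ℚ_[p])) c x b L hd').trans ?_
      have hK : ∑ s ∈ Finset.range (a + 1), ‖((V s x : ℤ_[p]) : ℚ_[p])‖ ≤ ((a + 1 : ℕ) : ℝ) := by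
        calc ∑ s ∈ Finset.range (a + 1), ‖((V s x : ℤ_[p]) : ℚ_[p])‖
            ≤ ∑ s ∈ Finset.range (a + 1), (1 : ℝ) :=
              Finset.sum_le_sum fun s _ => (V s x).2
          _ = ((a + 1 : ℕ) : ℝ) := by simp
      exact mul_le_mul_of_nonneg_right hK (by positivity)

end Pool.Agent.Helper63.TKW
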